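import Pool.Agent.Helper362.ProdG
set_option autoImplicit false

namespace Pool.Agent.Results.MP_46efc5_an.NotNormed

open Pool.Agent.Helper362.ProdId

/-- For real and for complex scalars the quasi-norm `𝐀₀ ∘ 𝐋₂` of the product ideal
`(𝔏₁ ∘ 𝔏_∞)** ∘ 𝔏₂` is not equivalent to any ideal norm. -/
theorem result (𝕜 : Type) [RCLike 𝕜] : ¬ IsNormed (prod (A0 𝕜) (L2 𝕜)) :=
  main

end Pool.Agent.Results.MP_46efc5_an.NotNormed
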